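import Pool.Agent.H6.NI.Tj
import Pool.Agent.H83.VP.V0p

/-!
# No look-ahead for the codes of orders at least one

`ni_of`: `NiStmt` (helper98): the record near `w + u` does not see more of two own jets of orders at
least one than the near path and the record of `w₁`.
-/

set_option autoImplicit false

namespace Pool.NI6

open Finset Real MvPolynomial
open Pool.Agent.H49.Ent Pool.Agent.H32.Dense
open Pool.STK hiding pr2
open Pool.KA Pool.KSAT Pool.K2S Pool.PB Pool.S6C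
open Pool.GEN Pool.CHT Pool.CHX Pool.ISO Pool.LA91 Pool.AVG71 Pool.AVG5 Pool.D2F2 Pool.AVG57
open Pool.RCD Pool.AVG96 Pool.OWN68 Pool.V0F Pool.V0S Pool.VA83 Pool.XR71
open Pool.PB.Trl (rt rt_mem t_rt)
open Pool.NA98 (tj nrJ NEv FdE)
open Pool.KVA (MI)
open Pool.VG83 (ch_det det_cR2 jh_if jv_if Hif hif_fun jh_few jv_few)
open Pool.VP83 (NP np_ex)

variable {m J : ℕ}

/-- Paths in two precisions. -/
theorem path_two {F : Fam m J} {c : ℕ → Fin m} {k w : ℕ}
    {H : LnT F → ℕ → MvPolynomial (Option (Fin m)) ℝ} {p : F.Ω → ℝ} (hp : IsLaw p)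
    {n n' v v' : ℕ → ℝ} {d : ℝ} (hd0 : 0 ≤ d) (hn : ∀ l < k, (n' l - n l) * J ≤ d)
    (hv : ∀ l < k, (v' l - v l) * J ≤ d) {β : Type} (Z : F.Ω → β)
    (hZ : Det p Z (jh F c k w H n)) (hZ' : Det p Z (jv F c k w H v)) :
    CH p (fun ω => (jh F c k w H n' ω, jv F c k w H v' ω)) Z ≤
      2 * (k * (d * Real.log 2 + Real.log 5)) := by
  have h1 := CH_subadd hp.nonneg (jh F c k w H n') (jv F c k w H v') Z
  have h2 := CH_jh hp hn hd0 Z hZ
  have h3 := CH_jv hp hv hd0 Z hZ'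
  linarith

/-- **(NI)** -/
theorem ni_of : Pool.NA98.NiStmt := by
  intro k D al be ε hk hbe hba hε
  refine ⟨ε / 16, by positivity, fun T hT => ?_⟩
  obtain ⟨T', hT'⟩ : ∃ T' : ℝ, T' = T + 9 := ⟨_, rfl⟩
  have hk0 : (0 : ℝ) ≤ k := Nat.cast_nonneg k
  obtain ⟨Λ', hΛ'⟩ : ∃ Λ' : ℝ, Λ' = 12 * T' + 4 * k + 60 := ⟨_, rfl⟩
  obtain ⟨M, hM⟩ : ∃ M : ℝ, M = (k : ℝ) + 3 := ⟨_, rfl⟩
  have M3 : 3 ≤ M := by rw [hM]; linarith
  have hM2 : 9 ≤ M ^ 2 := by nlinarith
  obtain ⟨φ₂, hφ₂⟩ : ∃ φ₂ : ℝ, φ₂ = min (1 / (4000 * M)) (ε / (328000 * M ^ 2)) := ⟨_, rfl⟩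
  have f20 : 0 < φ₂ := by rw [hφ₂]; exact lt_min (by positivity) (by positivity)
  have f21 : φ₂ * (4000 * M) ≤ 1 := by
    have e1 : φ₂ ≤ 1 / (4000 * M) := by rw [hφ₂]; exact min_le_left _ _
    rwa [le_div_iff₀ (by positivity)] at e1
  have f22 : φ₂ * (328000 * M ^ 2) ≤ ε := by
    have e1 : φ₂ ≤ ε / (328000 * M ^ 2) := by rw [hφ₂]; exact min_le_right _ _
    rwa [le_div_iff₀ (by positivity)] at e1
  have f23 : φ₂ ≤ 1 / 12000 := by
    have e1 : φ₂ * (4000 * 3) ≤ φ₂ * (4000 * M) := mul_le_mul_of_nonneg_left (by linarith) f20.le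
    linarith
  refine ⟨φ₂, 2 * Λ', f20, ?_⟩
  intro m S c sn sp G h b o w u Λ φ' e' lam hB hΛ he0 he2 K₀ e₀ ρ₀ φ x w₁ hφφ hφ2 hx hw₁ hw₂ E
  have L0 : Lad S c k sn G b o φ' := hB.lad.toLadR.lad
  have f0 : 0 < φ' := L0.φ0
  have u0 := hB.u0
  have v0 : 0 < φ₂ * u := by positivity
  have f3 : φ' ≤ φ₂ * u := hφφ.trans hφ2
  have f4 : φ₂ * u ≤ 1 / 12000 * u := mul_le_mul_of_nonneg_right f23 u0.le
  obtain ⟨u', hu'⟩ : ∃ u' : ℝ, u' = u + 2 * (φ₂ * u) := ⟨_, rfl⟩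
  have u'0 : 0 < u' := by rw [hu']; linarith
  have uu : u ≤ u' := by rw [hu']; linarith
  have u2 : u' ≤ 2 * u := by rw [hu']; linarith
  have Λ'0 : 0 ≤ Λ' := by rw [hΛ', hT']; linarith
  have lu : Λ' * u' ≤ Λ * u := by
    have e1 : Λ' * u' ≤ Λ' * (2 * u) := mul_le_mul_of_nonneg_left u2 Λ'0
    have e2 : 2 * Λ' * u ≤ Λ * u := mul_le_mul_of_nonneg_right hΛ u0.le
    linarith
  have lu0 : 0 ≤ Λ' * u' := by positivity
  have lue : Λ' * u' = 12 * (T' * u') + 4 * (k * u') + 60 * u' := by rw [hΛ']; ring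
  have ku' : 0 ≤ (k : ℝ) * u' := by positivity
  have tu : 10 * u' ≤ T' * u' := mul_le_mul_of_nonneg_right (by rw [hT']; linarith) u'0.le
  have bw := hB.bw
  have wo := hB.wo
  have ho1 := hB.o1
  have hxa := abs_le.1 hx
  obtain ⟨a, haG, ha⟩ := L0.gap (w + u') (by linarith) (by linarith)
  obtain ⟨x', hx'G, hx'⟩ := L0.gap (w + T' * u') (by linarith) (by linarith)
  obtain ⟨x'', hx''G, hx''⟩ := L0.gap (w + 3 * T' * u') (by linarith) (by linarith)
  have haa := abs_le.1 ha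
  have xa : x ≤ a := by linarith [haa.1, hxa.2]
  have w1a : (w₁ : ℝ) ≤ a := by linarith [haa.1]
  obtain ⟨y, hy⟩ : ∃ y : ℝ, y = M * (φ₂ * u) := ⟨_, rfl⟩
  have yφ : ((k : ℝ) + 3) * φ' ≤ y := by
    rw [hy, ← hM]
    exact mul_le_mul_of_nonneg_left f3 (by linarith)
  have y0 : 0 ≤ y := by rw [hy]; positivity
  have W : PW k sn G b o φ' w u' y T' Λ' w₁ a a a x' x'' :=
    { u0 := u'0
      yφ := yφ
      wG := hB.wG
      jG := haG
      xG := haG
      aG := haG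
      xG' := hx'G
      xG'' := hx''G
      hw1 := hw₁
      hw2 := hw₂
      wj := w1a
      jx := le_rfl
      xa := le_rfl
      ha := ha
      hx' := hx'
      hx'' := hx''
      bw := by linarith
      wo := by linarith
      o1 := by linarith
      b0 := by linarith [hB.b0]
      lb := fun l hl => by
        obtain ⟨e1, e2⟩ := hB.room l (by omega)
        constructor <;> linarith }
  have y2 : 2000 * y ≤ 1 * u' := by
    rw [hy]
    have e1 : φ₂ * (4000 * M) * u ≤ 1 * u := mul_le_mul_of_nonneg_right f21 u0.le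
    linarith
  have Nn := np_ex L0 W one_pos le_rfl (by rw [hT']; linarith) hΛ' y2
  obtain ⟨Pq, p1, p2, p3, p4, p5⟩ := Nn.pq (S := T' + 1) (by rw [hT']; linarith)
    (by rw [hT']; linarith)
  obtain ⟨Pr', r1, r2, r3, r4, r5⟩ := Nn.pq (S := 3 * T' + 1) (by rw [hT']; linarith)
    (by rw [hT'])
  obtain ⟨P, hP⟩ : ∃ P : ℕ → ℝ, P = fun l => ((Pq l : ℚ) : ℝ) := ⟨_, rfl⟩
  obtain ⟨Pe', hPe'⟩ : ∃ P : ℕ → ℝ, P = fun l => ((Pr' l : ℚ) : ℝ) := ⟨_, rfl⟩
  have hx'a := abs_le.1 hx'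
  have hx''a := abs_le.1 hx''
  have hf1 : FrI S c k sp b (fun i : Fin k => P i) w₁ x' (e' * u) := by
    rw [hP]
    exact hB.free (fun i : Fin k => Pq i) w₁ x' hw₁ hx'G (by linarith) (by linarith)
      (fun i => ⟨by linarith [(p4 i).1], by linarith [(p4 i).2]⟩)
      (fun l i hli => by linarith [p5 l i hli])
  have hf2 : FrI S c k sp b (fun i : Fin k => Pe' i) w₁ x'' (e' * u) := by
    rw [hPe']
    exact hB.free (fun i : Fin k => Pr' i) w₁ x'' hw₁ hx''G (by linarith) (by linarith)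
      (fun i => ⟨by linarith [(r4 i).1], by linarith [(r4 i).2]⟩)
      (fun l i hli => by linarith [r5 l i hli])
  have hPP : ∀ i < k, P i ≤ Pe' i := fun i hi => by
    rw [hP, hPe']
    have e1 := (p3 i hi).2
    have e2 := (r3 i hi).1
    show (Pq i : ℝ) ≤ Pr' i
    have e3 : (T' + 1 + ((k : ℝ) - i)) * u' = T' * u' + (1 + ((k : ℝ) - i)) * u' := by ring
    have e4 : (3 * T' + 1 + ((k : ℝ) - i)) * u' =
      3 * (T' * u') + (1 + ((k : ℝ) - i)) * u' := by ring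
    rw [e3] at e1
    rw [e4] at e2
    linarith
  have eu0 : 0 ≤ e' * u := by positivity
  have B1 := v0b_fam (D := D) L0 Nn.vbn hf1 hf2 eu0 hPP hB.spb v0 E
  have V := Nn.vbn
  obtain ⟨LK, hLK⟩ : ∃ LK : ℝ, LK = Real.log (2 * (Kt D : ℕ) + 1) := ⟨_, rfl⟩
  have LK0 : 0 ≤ LK := by
    rw [hLK]
    refine Real.log_nonneg ?_
    have : (0 : ℝ) ≤ ((Kt D : ℕ) : ℝ) := Nat.cast_nonneg _
    linarith
  obtain ⟨J₂, hJ₂⟩ := exists_nat_ge ((4100 * M + 2 * LK) / (ε / 8 * u))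
  refine Bas.mono J₂ (B1.and (pos_bas L0.pos)) ?_
  rintro J hJ F A ⟨H1, hA⟩ Hb Hw H NE FD i₁ i₂ hi1 hi1' hi2 hi2' N₁ N₂ hN1 hN2
  have hJ0 : (0 : ℝ) ≤ J := Nat.cast_nonneg J
  have hcl := isLaw_cond F.isLaw hA
  have h0 := hcl.nonneg
  have hsup : ∀ ω, 0 < Pool.Agent.H49.Ent.cond F.p A True ω → A ω := fun ω hω =>
    Pool.LA91.of_cond_pos hω
  have cJ : 4100 * M + 2 * LK ≤ ε / 8 * (u * J) := by
    have e1 : (J₂ : ℝ) ≤ J := by exact_mod_cast hJ
    have e2 := hJ₂.trans e1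
    rw [div_le_iff₀ (by positivity)] at e2
    linarith
  have l2 : Real.log 2 ≤ 1 := by linarith [Real.log_two_lt_d9]
  have l20 : 0 ≤ Real.log 2 := Real.log_nonneg (by norm_num)
  have l5 : Real.log 5 ≤ 3 := by
    have e1 : Real.log 5 ≤ Real.log (2 ^ 3) := Real.log_le_log (by norm_num) (by norm_num)
    rw [Real.log_pow] at e1
    push_cast at e1
    linarith [Real.log_two_lt_d9]
  have l50 : 0 ≤ Real.log 5 := Real.log_nonneg (by norm_num)
  obtain ⟨v, hv⟩ : ∃ v : ℝ, v = φ₂ * u * J := ⟨_, rfl⟩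
  have v00 : 0 ≤ v := by rw [hv]; positivity
  have LDe : LD F c k D b w φ' E sn A Hb Hw (Hif k H Hw) :=
    { lb := NE.vb.lb
      lt := NE.vw.lb k (Nat.lt_succ_self k)
      cb := NE.vb.cf
      cw := NE.vw.cf k (Nat.lt_succ_self k)
      hb := fun ω l hl => (if_pos hl).trans (NE.hb ω l hl)
      hw := fun ω => if_neg (lt_irrefl k) }
  obtain ⟨κ', hκ'⟩ : ∃ κ' : ℝ, κ' = 50 * ((k * (35 * y) + 20 * (k : ℝ) ^ 2 * φ' + e' * u +
    φ₂ * u) * J + k * Real.log 5) := ⟨_, rfl⟩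
  have w00 : 0 ≤ w := by linarith [L0.b0]
  have w11 : w ≤ 1 := by linarith
  have V1 := H1 Hb Hw (Hif k H Hw) LDe (fun l => sn l w - w + u') (fun l hl => by
    refine mul_le_mul_of_nonneg_right ?_ hJ0
    rw [hP]
    show sn l w - w + u' ≤ (Pq l : ℝ)
    have e1 := p1 l hl
    have e2 : (T' + 1) * u' = T' * u' + u' := by ring
    rw [e2] at e1
    linarith) κ' hκ'.ge
  simp only [jh_if, jv_if] at V1
  obtain ⟨p, hp⟩ : ∃ p : F.Ω → ℝ, p = Pool.Agent.H49.Ent.cond F.p A True := ⟨_, rfl⟩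
  rw [← hp] at V1 h0 hcl hsup ⊢
  have dR : ∀ {v v' : ℝ}, v ≤ v' → v' ≤ 1 → Det p (cR F A v') (cR F A v) := fun h1 h2 =>
    det_cR2 (fun _ h => h) h1 h2 hsup
  have a1 : a ≤ 1 := by linarith [haa.2]
  have x1 : x ≤ 1 := xa.trans a1
  have w1x : (w₁ : ℝ) ≤ x := by linarith [hxa.1]
  have z0 : ∀ {β : Type} (Z : F.Ω → β), CH p (fun _ : F.Ω => ()) Z ≤ κ' := fun Z => by
    rw [CH_eq_zero h0 (fun _ _ _ _ _ => rfl)]
    exact V1.κ0
  have VS := V1.side (Rj := cR F A a) (Rx := cR F A x) (sd := fun _ : F.Ω => ())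
    (N1 := fun _ : F.Ω => ()) (N2 := fun _ : F.Ω => ())
    ((ch_det h0 (dR w1a a1)).le.trans V1.κ0)
    ((ch_det h0 (dR le_rfl a1)).le.trans V1.κ0)
    ((ch_det h0 (dR xa a1)).le.trans V1.κ0) (z0 _) (z0 _) (z0 _)
    (by
      have e1 := Pool.AVG71.MI_eq' h0 (cR F A a) (fun _ : F.Ω => ())
        (fun ω => ((fun _ : F.Ω => ()) ω, ((fun _ : F.Ω => ()) ω,
          ((fun ω => (jh F c k ⌊w * J⌋₊ H (nfF k sn w x'' φ') ω,
            jv F c k ⌊w * J⌋₊ H Pe' ω)) ω, (cR F A (w₁ : ℝ) ω, F.W ω)))))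
      have e2 := z0 (fun ω => ((fun _ : F.Ω => ()) ω, ((fun _ : F.Ω => ()) ω,
          ((fun ω => (jh F c k ⌊w * J⌋₊ H (nfF k sn w x'' φ') ω,
            jv F c k ⌊w * J⌋₊ H Pe' ω)) ω, (cR F A (w₁ : ℝ) ω, F.W ω)))))
      have e3 := CH_nonneg h0 (fun _ : F.Ω => ()) (fun ω => (cR F A a ω,
        ((fun _ : F.Ω => ()) ω, ((fun _ : F.Ω => ()) ω,
          ((fun ω => (jh F c k ⌊w * J⌋₊ H (nfF k sn w x'' φ') ω,
            jv F c k ⌊w * J⌋₊ H Pe' ω)) ω, (cR F A (w₁ : ℝ) ω, F.W ω))))))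
      linarith)
  have hmx := VS.mx
  obtain ⟨nr, hnr⟩ : ∃ nr : F.Ω → ℕ → ℕ → ℤ, nr = nrJ F c k sn w u φ H := ⟨_, rfl⟩
  obtain ⟨X, hX⟩ : ∃ X : F.Ω → ℤ × ℤ, X = fun ω =>
    (tj F c w H k i₁ N₁ ω, tj F c w H (k + 1) i₂ N₂ ω) := ⟨_, rfl⟩
  obtain ⟨far, hfar⟩ : ∃ far : F.Ω → (ℕ → ℕ → ℤ) × (Fin k → ℤ), far = fun ω =>
    (jh F c k ⌊w * J⌋₊ H (nfF k sn w x' φ') ω, jv F c k ⌊w * J⌋₊ H P ω) := ⟨_, rfl⟩
  have e400 : 400 * ((k : ℝ) + 2) * φ ≤ 400 * M * (φ₂ * u) := by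
    have g1 : ((k : ℝ) + 2) * φ ≤ M * (φ₂ * u) :=
      mul_le_mul (by linarith) hφ2 (f0.le.trans hφφ) (by linarith)
    linarith
  have e400' : 0 ≤ 400 * ((k : ℝ) + 2) * φ := by
    have : 0 ≤ φ := f0.le.trans hφφ
    positivity
  have Mv : φ₂ * u ≤ M * (φ₂ * u) := le_mul_of_one_le_left v0.le (by linarith)
  have kf : ∀ l < k, 0 ≤ 20 * ((k : ℝ) - l) * φ' ∧ 20 * ((k : ℝ) - l) * φ' ≤ 20 * y ∧
      0 ≤ (30 * ((k : ℝ) - l) + 5) * φ' := fun l hl => by
    have g1 : (l : ℝ) ≤ k := by exact_mod_cast hl.le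
    have g2 : (0 : ℝ) ≤ l := Nat.cast_nonneg l
    refine ⟨mul_nonneg (by linarith) f0.le, ?_, mul_nonneg (by linarith) f0.le⟩
    have g3 : ((k : ℝ) - l) * φ' ≤ ((k : ℝ) + 3) * φ' := mul_le_mul_of_nonneg_right (by linarith)
      f0.le
    linarith
  obtain ⟨d, hd⟩ : ∃ d : ℝ, d = 400 * M * v := ⟨_, rfl⟩
  have d0 : 0 ≤ d := by rw [hd]; positivity
  have dJ : 400 * M * (φ₂ * u) * J = d := by rw [hd, hv]; ring
  have tod : ∀ {z : ℝ}, z ≤ 400 * M * (φ₂ * u) → z * J ≤ d := fun hz => by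
    rw [← dJ]
    exact mul_le_mul_of_nonneg_right hz hJ0
  obtain ⟨N₀, hN₀⟩ : ∃ N₀ : ℕ → ℕ → ℝ, N₀ = fun (l' j' : ℕ) =>
    sn l' w + u + 400 * ((k : ℝ) + 2) * φ - (j' : ℝ) * w := ⟨_, rfl⟩
  have hnr2 : nr = jet2 F c ⌊w * J⌋₊ H 0 k N₀ := by rw [hnr, hN₀]; rfl
  obtain ⟨ctx, hctx⟩ : ∃ ctx : F.Ω → ((ℕ → ℕ → ℤ) × (Fin k → ℤ)) × (({D : F.Ω → Prop //
      Cl2 (ptr F J) (vg (w₁ : ℝ) J F) A D} → Prop) × (Unit × (ℕ × F.ζ))), ctx = fun ω =>
      ((jh F c k ⌊w * J⌋₊ H (nnF k sn w u' y φ') ω,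
        jv F c k ⌊w * J⌋₊ H (fun l => sn l w - w + u') ω), (cR F A (w₁ : ℝ) ω,
        ((), F.W ω))) := ⟨_, rfl⟩
  obtain ⟨C, hC⟩ : ∃ C : F.Ω → (ℕ → ℕ → ℤ) × (({D : F.Ω → Prop //
      Cl2 (ptr F J) (vg (w₁ : ℝ) J F) A D} → Prop) × (ℕ × F.ζ)), C = fun ω =>
      (nr ω, (cR F A (w₁ : ℝ) ω, F.W ω)) := ⟨_, rfl⟩
  have hmx' : MI p (cR F A x) far ctx ≤ 27 * κ' := by
    rw [hfar, hctx]
    exact hmx
  have c1 : CH p C ctx ≤ 2 * (k * (d * Real.log 2 + Real.log 5)) := by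
    have g1 := path_two hcl (F := F) (c := c) (k := k) (w := ⌊w * J⌋₊) (H := H)
      (n := nnF k sn w u' y φ') (n' := fun l => N₀ l 0) (v := fun l => sn l w - w + u')
      (v' := fun l => N₀ l 1) d0 (fun l hl => tod (by
        rw [hN₀]
        unfold nnF
        dsimp only
        push_cast
        linarith [kf l hl])) (fun l hl => tod (by
        rw [hN₀]
        dsimp only
        push_cast
        linarith)) ctx (fun ω ν _ _ e => by
          rw [hctx] at e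
          exact (Prod.ext_iff.mp (Prod.ext_iff.mp e).1).1) (fun ω ν _ _ e => by
          rw [hctx] at e
          exact (Prod.ext_iff.mp (Prod.ext_iff.mp e).1).2)
    refine (CH_mono_left h0 fun ω ν _ _ e => ?_).trans g1
    obtain ⟨e1, e2⟩ := Prod.ext_iff.mp e
    obtain ⟨e3, e4⟩ := Prod.ext_iff.mp e1
    rw [hctx] at e2
    simp only [Prod.mk.injEq] at e2
    rw [hC, hnr2]
    exact Prod.ext (path_j2 e3 e4) (Prod.ext e2.2.1 e2.2.2.2)
  have c2 : CH p ctx C ≤ 2 * (k * (d * Real.log 2 + Real.log 5)) := by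
    have g1 := path_two hcl (F := F) (c := c) (k := k) (w := ⌊w * J⌋₊) (H := H)
      (n' := nnF k sn w u' y φ') (n := fun l => N₀ l 0) (v' := fun l => sn l w - w + u')
      (v := fun l => N₀ l 1) d0 (fun l hl => tod (by
        rw [hN₀]
        unfold nnF
        dsimp only
        push_cast
        linarith [kf l hl])) (fun l hl => tod (by
        rw [hN₀]
        dsimp only
        push_cast
        linarith)) C (fun ω ν _ _ e => by
          rw [hC, hnr2] at e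
          exact j2_jh (Prod.ext_iff.mp e).1) (fun ω ν _ _ e => by
          rw [hC, hnr2] at e
          exact j2_jv (Prod.ext_iff.mp e).1)
    refine (CH_mono_left h0 fun ω ν _ _ e => ?_).trans g1
    obtain ⟨e1, e2⟩ := Prod.ext_iff.mp e
    rw [hC] at e2
    simp only [Prod.mk.injEq] at e2
    rw [hctx]
    exact Prod.ext e1 (Prod.ext e2.2.1 (Prod.ext rfl e2.2.2))
  have s1 := Pool.AVG71.MI_eq' h0 (cR F A x) X C
  have s2 : CH p X (fun ω => (cR F A x ω, C ω)) ≤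
      CH p X (fun ω => (nr ω, (cR F A x ω, F.W ω))) := CH_mono_cond h0 fun ω ν _ _ e => by
    rw [hC] at e
    simp only [Prod.mk.injEq] at e ⊢
    exact ⟨e.2.1, e.1, e.2.2.2⟩
  have s3 := Pool.PRM.MI_le_add h0 (cR F A x) X far C
  have s4 := Pool.AVG57.MI_few h0 (cR F A x) far (W := C) (W' := ctx) c1 c2
  have s5 : CH p X (fun ω => (far ω, C ω)) ≤
      2 * (ε / 16 * u * J + LK + 2 * (k * Real.log 5)) := by
    have one : ∀ (l i : ℕ) (N : ℝ), k ≤ l → l ≤ k + 1 → 1 ≤ i → i ≤ D + 1 →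
        N + i * w ≤ sn l w + two k 1 (be / al) l * u →
        CH p (tj F c w H l i N) (fun ω => (far ω, C ω)) ≤
          ε / 16 * u * J + LK + 2 * (k * Real.log 5) := by
      intro l i N l1 l2' i1 i2 hN
      obtain ⟨cd, hcd⟩ : ∃ cd, cd = Pool.AVG57.cod F ⌊w * J⌋₊ (fun s' => H s' l) (c l)
        ⌊(sn l w + two k 1 (be / al) l * u) * J⌋₊ 1 (D + 1) := ⟨_, rfl⟩
      obtain ⟨N1', hN1'⟩ : ∃ N1' : ℕ → ℕ → ℝ, N1' = fun (l' j' : ℕ) =>
        sn l' w + T * u - (j' : ℝ) * w := ⟨_, rfl⟩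
      have hdeg : ∀ s, (H s l).totalDegree ≤ D := fun s => by
        obtain ⟨V₁, z₁, z₂, G₁, h3, h4⟩ := NE.lt l l1 l2'
        rw [← h4]
        exact h3.deg _
      have y0' : 0 ≤ sn l w + two k 1 (be / al) l * u := by
        have g1 := hB.lad.toLadR.st l l1 l2' b L0.bG w hB.wG le_rfl (by linarith) (by linarith)
        have g2 := (hB.room l l2').1
        have g3 : 0 ≤ two k 1 (be / al) l := by
          unfold two
          split_ifs
          · exact zero_le_one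
          · exact div_nonneg (by linarith) (by linarith)
        have g4 : 0 ≤ two k 1 (be / al) l * u := by positivity
        linarith
      have t1 := Pool.STR91.ch_via h0 (tj F c w H l i N) cd (fun ω => (far ω, C ω)) le_rfl
      have t2 := tj_cod (Z := fun ω => (cd ω, (far ω, C ω))) hcl (c := c) (H := H)
        (l := l) (i := i) (D := D) (a₀ := 1) (N := N)
        (y := sn l w + two k 1 (be / al) l * u) w00 w11 hdeg i1 i2 hN
        (fun ω ν _ _ e => by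
          rw [hC, hcd] at e
          simp only [Prod.mk.injEq] at e
          exact ⟨(Prod.ext_iff.mp e.2.2.2.2).1, e.1⟩)
      rw [← hLK] at t2
      have t3 := Pool.STR91.ch_via h0 cd (jet2 F c ⌊w * J⌋₊ H 0 k N1') (fun ω => (far ω, C ω))
        le_rfl
      have t4 : CH p cd (fun ω => (jet2 F c ⌊w * J⌋₊ H 0 k N1' ω, (far ω, C ω))) ≤
          ε / 16 * u * J := by
        have g1 := FD l l1 l2' ⌊(sn l w + two k 1 (be / al) l * u) * J⌋₊
          (Nat.floor_le (mul_nonneg y0' hJ0))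
        rw [← hp, ← hcd, ← hN1'] at g1
        refine le_trans (CH_mono_cond h0 fun ω ν hω hν e => ?_) g1
        rw [hC] at e
        simp only [Prod.mk.injEq] at e ⊢
        exact ⟨e.1, dR hw₁ (w1a.trans a1) ω ν hω hν e.2.2.2.1, e.2.2.2.2⟩
      have t5 : CH p (jet2 F c ⌊w * J⌋₊ H 0 k N1') (fun ω => (far ω, C ω)) ≤
          2 * (k * Real.log 5) := by
        have g1 := path_two hcl (F := F) (c := c) (k := k) (w := ⌊w * J⌋₊) (H := H)
          (n := nfF k sn w x' φ') (n' := fun l => N1' l 0) (v := P)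
          (v' := fun l => N1' l 1) (d := 0) le_rfl (fun l hl => by
            have g2 : N1' l 0 ≤ nfF k sn w x' φ' l := by
              rw [hN1']
              unfold nfF
              dsimp only
              push_cast
              have g3 : T * u ≤ T * u' := mul_le_mul_of_nonneg_left uu (by linarith)
              have g4 : T' * u' = T * u' + 9 * u' := by rw [hT']; ring
              linarith [kf l hl, hx'a.1]
            have g3 := mul_le_mul_of_nonneg_right g2 hJ0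
            linarith) (fun l hl => by
            have g2 : N1' l 1 ≤ P l := by
              rw [hN1', hP]
              dsimp only
              push_cast
              have g3 : T * u ≤ T * u' := mul_le_mul_of_nonneg_left uu (by linarith)
              have g4 : (T' + 1) * u' = T * u' + 10 * u' := by rw [hT']; ring
              have g5 := p1 l hl
              rw [g4] at g5
              linarith
            have g3 := mul_le_mul_of_nonneg_right g2 hJ0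
            linarith) (fun ω => (far ω, C ω)) (fun ω ν _ _ e => by
            rw [hfar] at e
            exact (Prod.ext_iff.mp (Prod.ext_iff.mp e).1).1) (fun ω ν _ _ e => by
            rw [hfar] at e
            exact (Prod.ext_iff.mp (Prod.ext_iff.mp e).1).2)
        rw [zero_mul, zero_add] at g1
        refine (CH_mono_left h0 fun ω ν _ _ e => ?_).trans g1
        obtain ⟨e1, e2⟩ := Prod.ext_iff.mp e
        obtain ⟨e3, e4⟩ := Prod.ext_iff.mp e1
        exact path_j2 e3 e4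
      linarith
    have o1 := one k i₁ N₁ le_rfl (by omega) hi1 hi1' (by
      unfold two
      rw [if_pos rfl]
      linarith)
    have o2 := one (k + 1) i₂ N₂ (by omega) le_rfl hi2 hi2' (by
      unfold two
      rw [if_neg (by omega)]
      linarith)
    have g1 := CH_subadd h0 (tj F c w H k i₁ N₁) (tj F c w H (k + 1) i₂ N₂)
      (fun ω => (far ω, C ω))
    rw [hX]
    linarith
  -- the numbers
  have n1 : κ' ≤ 50 * (57 * (M ^ 2 * v) + 3 * M) := by
    rw [hκ']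
    have g1 : (k : ℝ) * (35 * y) * J = 35 * (k * M) * v := by rw [hy, hv]; ring
    have g2 : (k : ℝ) * M ≤ M ^ 2 := by
      rw [pow_two]
      exact mul_le_mul_of_nonneg_right (by linarith) (by linarith)
    have g3 : (k : ℝ) ^ 2 ≤ M ^ 2 := pow_le_pow_left₀ hk0 (by linarith) 2
    have g4 : φ' * J ≤ v := by
      rw [hv]
      exact mul_le_mul_of_nonneg_right f3 hJ0
    have g5 : e' * u * J ≤ v := by
      rw [hv]
      exact mul_le_mul_of_nonneg_right (mul_le_mul_of_nonneg_right he2 u0.le) hJ0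
    have g6 : 20 * (k : ℝ) ^ 2 * (φ' * J) ≤ 20 * M ^ 2 * v :=
      mul_le_mul (by linarith) g4 (by positivity) (by positivity)
    have g7 : 35 * (k * M) * v ≤ 35 * M ^ 2 * v := mul_le_mul_of_nonneg_right (by linarith) v00
    have g8 : (k : ℝ) * Real.log 5 ≤ M * 3 := mul_le_mul (by linarith) l5 l50 (by linarith)
    have g9 : 2 * v ≤ 2 * M ^ 2 * v := by
      have : 2 * v ≤ (2 * M ^ 2) * v := mul_le_mul_of_nonneg_right (by linarith) v00
      linarith
    have g10 : (k * (35 * y) + 20 * (k : ℝ) ^ 2 * φ' + e' * u + φ₂ * u) * J + k * Real.log 5 =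
        (k : ℝ) * (35 * y) * J + 20 * (k : ℝ) ^ 2 * (φ' * J) + e' * u * J + v +
          k * Real.log 5 := by
      rw [hv]
      ring
    rw [g10, g1]
    linarith
  have n2 : k * (d * Real.log 2 + Real.log 5) ≤ 400 * (M ^ 2 * v) + 3 * M := by
    have g1 : d * Real.log 2 ≤ d * 1 := mul_le_mul_of_nonneg_left l2 d0
    have g2 : k * (d * Real.log 2 + Real.log 5) ≤ M * (d + 3) :=
      mul_le_mul (by linarith) (by linarith) (by positivity) (by linarith)
    have g3 : M * (d + 3) = 400 * (M ^ 2 * v) + 3 * M := by rw [hd]; ring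
    linarith
  have n3 : (k : ℝ) * Real.log 5 ≤ 3 * M := by
    have : (k : ℝ) * Real.log 5 ≤ M * 3 := mul_le_mul (by linarith) l5 l50 (by linarith)
    linarith
  have n4 : 328000 * (M ^ 2 * v) ≤ ε * (u * J) := by
    have g1 : φ₂ * (328000 * M ^ 2) * (u * J) ≤ ε * (u * J) :=
      mul_le_mul_of_nonneg_right f22 (by positivity)
    rw [hv]
    linarith
  have goal : CH p X C ≤ CH p X (fun ω => (nr ω, (cR F A x ω, F.W ω))) + ε * u * J := by
    linarith
  rw [hX, hC, hnr] at goal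
  exact goal

end Pool.NI6
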