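import Pool.Agent.H98.NA.S
import Pool.Agent.H91.STR.Mic
import Pool.Agent.H4.T4.Frd

/-!
# The own jets from the codes of the same orders

`tj_cod`: the digits of an own jet of order `i` of a target, given the codes of the orders at least
`a₀ ≤ i` and the time, are a bounded number of bits. `j2_path`, `path_j2`: the jets of orders `0`,
`1` as positions and velocities.
-/

set_option autoImplicit false

namespace Pool.NI6

open Finset Real MvPolynomial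
open Pool.Agent.H49.Ent Pool.Agent.H32.Dense
open Pool.STK hiding pr2
open Pool.KA Pool.KSAT Pool.K2S Pool.PB Pool.S6C
open Pool.GEN Pool.CHT Pool.CHX Pool.ISO Pool.LA91 Pool.AVG71 Pool.AVG5 Pool.D2F2 Pool.AVG57
open Pool.RCD Pool.AVG96 Pool.OWN68 Pool.V0F
open Pool.PB.Trl (rt rt_mem t_rt)
open Pool.NA98 (tj)
open Pool.STR16 (rho)

variable {m J : ℕ}

theorem rho_rt (F : Fam m J) (a : ℕ) (ω : F.Ω) : rho F a ω = rt F a ω := by
  unfold rho rt Pool.T4E.vtf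
  push_cast
  rfl

/-- The bound. -/
noncomputable def Kt (D : ℕ) : ℕ := 2 * ((D + 1).factorial * (1 + (D + 2) * 2 ^ (D + 1))) + 1

/-- **The own jets** of order `i` from the codes of the orders at least `a₀ ≤ i`. -/
theorem tj_cod {F : Fam m J} {c : ℕ → Fin m} {w y N : ℝ} {l i D a₀ : ℕ}
    {H : LnT F → ℕ → MvPolynomial (Option (Fin m)) ℝ} {p : F.Ω → ℝ} (hp : IsLaw p) (hw0 : 0 ≤ w)
    (hw1 : w ≤ 1) (hdeg : ∀ s, (H s l).totalDegree ≤ D) (hai : a₀ ≤ i) (hi : i ≤ D + 1)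
    (hN : N + i * w ≤ y) {V : Type} {Z : F.Ω → V}
    (hZ : ∀ ω ω', 0 < p ω → 0 < p ω' → Z ω = Z ω' → F.T ω = F.T ω' ∧
      Pool.AVG57.cod F ⌊w * J⌋₊ (fun s' => H s' l) (c l) ⌊y * J⌋₊ a₀ (D + 1) ω =
        Pool.AVG57.cod F ⌊w * J⌋₊ (fun s' => H s' l) (c l) ⌊y * J⌋₊ a₀ (D + 1) ω') :
    CH p (tj F c w H l i N) Z ≤ Real.log (2 * (Kt D : ℕ) + 1) := by
  have hJ0 : (0 : ℝ) ≤ J := Nat.cast_nonneg J
  obtain ⟨W, hW⟩ : ∃ W : ℕ, W = ⌊w * (J : ℝ)⌋₊ := ⟨_, rfl⟩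
  have hWw : (W : ℝ) ≤ w * J := by rw [hW]; exact Nat.floor_le (by positivity)
  have hWJ : W ≤ J := by
    have e1 : w * (J : ℝ) ≤ 1 * J := mul_le_mul_of_nonneg_right hw1 hJ0
    have e2 : (W : ℝ) ≤ J := by linarith
    exact_mod_cast e2
  obtain ⟨M, hM⟩ : ∃ M : ℕ, M = ⌊y * (J : ℝ)⌋₊ := ⟨_, rfl⟩
  have hMy : y * J < M + 1 := by rw [hM]; exact Nat.lt_floor_add_one _
  rw [← hW, ← hM] at hZ
  refine Pool.T4J.ch_one hp _ _ fun ω ω' hω hω' e => ?_
  obtain ⟨hT, hc⟩ := hZ ω ω' hω hω' e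
  obtain ⟨A, hA⟩ : ∃ A : Polynomial ℝ, A = dv W (fun s (_ : Fin m) => H s l) (c l)
    (slam F W ω) := ⟨_, rfl⟩
  obtain ⟨B, hB⟩ : ∃ B : Polynomial ℝ, B = dv W (fun s (_ : Fin m) => H s l) (c l)
    (slam F W ω') := ⟨_, rfl⟩
  have dA : A.natDegree ≤ D + 1 := by
    rw [hA]
    exact natDegree_dv W (G := fun s (_ : Fin m) => H s l) (fun s _ => hdeg s) _ _
  have dB : B.natDegree ≤ D + 1 := by
    rw [hB]
    exact natDegree_dv W (G := fun s (_ : Fin m) => H s l) (fun s _ => hdeg s) _ _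
  have h1 : ∀ j, i ≤ j → |(2 : ℝ) ^ (fun _ : ℕ => M) j * A.coeff j -
      2 ^ (fun _ : ℕ => M) j * B.coeff j| ≤ 1 := fun j hj => by
    by_cases hjD : j ≤ D + 1
    · have h2 := cod_near hc (b := j) (hai.trans hj) hjD
      rw [← hA, ← hB] at h2
      show |(2 : ℝ) ^ M * A.coeff j - 2 ^ M * B.coeff j| ≤ 1
      rw [← mul_sub, abs_mul, abs_of_pos (by positivity : (0 : ℝ) < 2 ^ M)]
      have h3 := mul_le_mul_of_nonneg_left h2 (by positivity : (0 : ℝ) ≤ 2 ^ M)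
      rwa [mul_one_div_cancel (by positivity)] at h3
    · rw [Polynomial.coeff_eq_zero_of_natDegree_lt (by omega : A.natDegree < j),
        Polynomial.coeff_eq_zero_of_natDegree_lt (by omega : B.natDegree < j), mul_zero, sub_zero,
        abs_zero]
      exact zero_le_one
  have h2 := Pool.STR91.near_tay dA dB (Pool.STR91.rho_abs (a := W) ω) (G := fun _ => M)
    monotone_const zero_le_one i h1
  obtain ⟨s, hs⟩ : ∃ s : ℝ, s = 1 + (((D + 1 : ℕ) : ℝ) + 1) * 2 ^ (D + 1) * 1 := ⟨_, rfl⟩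
  rw [← hs] at h2
  have s0 : 0 ≤ s := by rw [hs]; positivity
  have r1 : rho F W ω = rt F W ω := rho_rt F W ω
  have r2 : rho F W ω = rt F W ω' := by rw [← rho_rt, Pool.STR91.rho_eq hT]
  obtain ⟨x, hx⟩ : ∃ x : ℝ, x = ojet F (c l) i (H (slam F W ω) l) ω := ⟨_, rfl⟩
  obtain ⟨x', hx'⟩ : ∃ x' : ℝ, x' = ojet F (c l) i (H (slam F W ω') l) ω' := ⟨_, rfl⟩
  have t1 : (Polynomial.taylor (rho F W ω) A).coeff i = x / ((i.factorial : ℝ) * (2 ^ W) ^ i) := by
    rw [r1, hA, ojet_tay F hWJ, hx]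
  have t2 : (Polynomial.taylor (rho F W ω) B).coeff i =
      x' / ((i.factorial : ℝ) * (2 ^ W) ^ i) := by
    rw [r2, hB, ojet_tay F hWJ, hx']
  rw [t1, t2, ← mul_sub, ← sub_div, abs_mul, abs_div, abs_of_pos (by positivity : (0 : ℝ) < 2 ^ M),
    abs_of_pos (by positivity : (0 : ℝ) < (i.factorial : ℝ) * (2 ^ W) ^ i), mul_div_assoc'] at h2
  rw [div_le_iff₀ (by positivity)] at h2
  -- the scales
  have h3 : (2 : ℝ) ^ (N * J) * (2 ^ W) ^ i ≤ 2 * 2 ^ M := by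
    rw [← pow_mul, ← Real.rpow_natCast (2 : ℝ) (W * i), ← Real.rpow_natCast (2 : ℝ) M,
      ← Real.rpow_add (by norm_num)]
    have e1 : (2 : ℝ) * 2 ^ (M : ℝ) = 2 ^ ((M : ℝ) + 1) := by
      rw [Real.rpow_add (by norm_num), Real.rpow_one]
      ring
    rw [e1]
    refine Real.rpow_le_rpow_of_exponent_le (by norm_num) ?_
    push_cast
    have i0 : (0 : ℝ) ≤ i := Nat.cast_nonneg i
    have e2 : (W : ℝ) * i ≤ w * J * i := mul_le_mul_of_nonneg_right hWw i0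
    have e3 : (N + i * w) * J ≤ y * J := mul_le_mul_of_nonneg_right hN hJ0
    nlinarith
  have h4 : |(2 : ℝ) ^ (N * J) * x - 2 ^ (N * J) * x'| ≤
      2 * ((D + 1).factorial * (1 + (D + 2) * 2 ^ (D + 1))) := by
    have p1 : (0 : ℝ) < 2 ^ (N * J) := Real.rpow_pos_of_pos (by norm_num) _
    have p2 : (0 : ℝ) < 2 ^ M := by positivity
    rw [← mul_sub, abs_mul, abs_of_pos p1]
    have e1 : (2 : ℝ) ^ M * (2 ^ (N * J) * |x - x'|) ≤
        2 ^ M * (2 * (s * (i.factorial : ℝ))) := by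
      calc (2 : ℝ) ^ M * (2 ^ (N * J) * |x - x'|) = 2 ^ (N * J) * (2 ^ M * |x - x'|) := by ring
        _ ≤ 2 ^ (N * J) * (s * ((i.factorial : ℝ) * (2 ^ W) ^ i)) :=
          mul_le_mul_of_nonneg_left h2 p1.le
        _ = s * (i.factorial : ℝ) * (2 ^ (N * J) * (2 ^ W) ^ i) := by ring
        _ ≤ s * (i.factorial : ℝ) * (2 * 2 ^ M) := mul_le_mul_of_nonneg_left h3 (by positivity)
        _ = _ := by ring
    have e2 := le_of_mul_le_mul_left e1 p2
    have e3 : (i.factorial : ℝ) ≤ (D + 1).factorial := by exact_mod_cast Nat.factorial_le hi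
    have e4 : s * (i.factorial : ℝ) ≤ s * ((D + 1).factorial : ℝ) :=
      mul_le_mul_of_nonneg_left e3 s0
    have e5 : s = 1 + (D + 2) * 2 ^ (D + 1) := by
      rw [hs]
      push_cast
      ring
    rw [e5] at e4 e2
    linarith
  have h5 := Pool.STR91.fl_near2 h4
  unfold tj
  rw [← hW, ← hx, ← hx']
  refine h5.trans ?_
  unfold Kt
  push_cast
  linarith

section

variable {F : Fam m J} {c : ℕ → Fin m} {k w : ℕ}
  {H : LnT F → ℕ → MvPolynomial (Option (Fin m)) ℝ} {N : ℕ → ℕ → ℝ}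

/-- The jets from the positions and the velocities. -/
theorem path_j2 {ω ω' : F.Ω} (h1 : jh F c k w H (fun l => N l 0) ω =
    jh F c k w H (fun l => N l 0) ω') (h2 : jv F c k w H (fun l => N l 1) ω =
    jv F c k w H (fun l => N l 1) ω') : jet2 F c w H 0 k N ω = jet2 F c w H 0 k N ω' := by
  funext l j'
  unfold jet2
  by_cases h : 0 ≤ l ∧ l < k ∧ j' ≤ 1
  · rw [if_pos h, if_pos h]
    have hj : j' = 0 ∨ j' = 1 := by omega
    rcases hj with rfl | rfl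
    · have e1 := congrFun (congrFun h1 l) 0
      unfold jh at e1
      rw [if_pos ⟨h.2.1, rfl⟩, if_pos ⟨h.2.1, rfl⟩] at e1
      exact e1
    · exact congrFun h2 ⟨l, h.2.1⟩
  · rw [if_neg h, if_neg h]

/-- The positions from the jets. -/
theorem j2_jh {ω ω' : F.Ω} (h : jet2 F c w H 0 k N ω = jet2 F c w H 0 k N ω') :
    jh F c k w H (fun l => N l 0) ω = jh F c k w H (fun l => N l 0) ω' := by
  funext l j'
  unfold jh
  by_cases hl : l < k ∧ j' = 0
  · rw [if_pos hl, if_pos hl]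
    have e1 := congrFun (congrFun h l) 0
    unfold jet2 at e1
    rw [if_pos ⟨Nat.zero_le _, hl.1, zero_le_one⟩, if_pos ⟨Nat.zero_le _, hl.1, zero_le_one⟩] at e1
    exact e1
  · rw [if_neg hl, if_neg hl]

/-- The velocities from the jets. -/
theorem j2_jv {ω ω' : F.Ω} (h : jet2 F c w H 0 k N ω = jet2 F c w H 0 k N ω') :
    jv F c k w H (fun l => N l 1) ω = jv F c k w H (fun l => N l 1) ω' := by
  funext l
  have e1 := congrFun (congrFun h (l : ℕ)) 1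
  unfold jet2 at e1
  rw [if_pos ⟨Nat.zero_le _, l.2, le_rfl⟩, if_pos ⟨Nat.zero_le _, l.2, le_rfl⟩] at e1
  exact e1

end

end Pool.NI6
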